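import Pool.Agent.helper26.T5.SpecH

set_option autoImplicit false

/-!
# T5: row HFD, the tuples of discriminant `D f ^ 2` for one field and one `f`
-/

namespace Pool.Agent.helper26.T5

open Finset NumberField Pool.Agent.helper3.FT Pool.Agent.helper47.RA Pool.Agent.T5
open Pool.Agent.helper28.LT (rad)
open Pool.Agent.helper28.LT (FC_step FC_ideal FA_split unit_pow)

/-- at most twelve generators -/
theorem HFD_gen {K : Type} [Field K] [NumberField K] (Q : QF K) (hD : Q.D < 0)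
    (J : Ideal (𝓞 K)) (I : Finset (𝓞 K)) (h : ∀ y ∈ I, Ideal.span {y} = J) :
    (I.card : ℝ) ≤ 12 := by
  classical
  rcases I.eq_empty_or_nonempty with rfl | ⟨y₀, hy₀⟩
  · simp
  have h1 : I ⊆ (Polynomial.nthRoots 12 (1 : 𝓞 K)).toFinset.image (fun e => y₀ * e) := by
    intro y hy
    have h2 : Ideal.span {y₀} = Ideal.span {y} := (h y₀ hy₀).trans (h y hy).symm
    obtain ⟨e, he⟩ := Ideal.span_singleton_eq_span_singleton.1 h2
    refine Finset.mem_image.2 ⟨(e : 𝓞 K), ?_, he⟩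
    rw [Multiset.mem_toFinset, Polynomial.mem_nthRoots (by norm_num)]
    exact unit_pow Q hD _ e.isUnit
  have h3 : I.card ≤ 12 :=
    calc I.card ≤ ((Polynomial.nthRoots 12 (1 : 𝓞 K)).toFinset.image (fun e => y₀ * e)).card :=
          Finset.card_le_card h1
      _ ≤ (Polynomial.nthRoots 12 (1 : 𝓞 K)).toFinset.card := Finset.card_image_le
      _ ≤ (Polynomial.nthRoots 12 (1 : 𝓞 K)).card := Multiset.toFinset_card_le _
      _ ≤ 12 := Polynomial.card_nthRoots 12 1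
  exact_mod_cast h3

/-- an ideal whose norm is a fifth power of a divisor of `M` -/
theorem HFD_dvd {K : Type} [Field K] [NumberField K] (A : Ideal (𝓞 K)) (b M : ℕ)
    (hA : Ideal.absNorm A = b ^ 5) (hb : b ∣ M) : A ∣ Ideal.span {((M ^ 5 : ℕ) : 𝓞 K)} := by
  rw [Ideal.dvd_span_singleton]
  obtain ⟨c, hc⟩ := pow_dvd_pow_of_dvd hb 5
  have h1 := Ideal.absNorm_mem A
  rw [hA] at h1
  rw [hc]
  push_cast
  push_cast at h1
  exact Ideal.mul_mem_right _ _ h1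

theorem HFD_ne {K : Type} [Field K] [NumberField K] (A : Ideal (𝓞 K)) (b : ℕ) (hb : 1 ≤ b)
    (hA : Ideal.absNorm A = b ^ 5) : A ≠ ⊥ := by
  intro h
  rw [h, Ideal.absNorm_bot] at hA
  have : 0 < b ^ 5 := by positivity
  omega

/-- HFD -/
theorem hfd (h1 : AELE_stmt) (h2 : HID) (h3 : HCL) (h4 : HGA) (h5 : HGT) : HFD := by
  classical
  intro K _ _ Q f M Y X hfin hD hf hp5 hY hX hM hMb F hF
  have data : ∀ t : {t // t ∈ F}, ∃ (θ : 𝓞 K) (b g : ℕ) (a A : Ideal (𝓞 K)),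
      (∃ α γ u v θ' : 𝓞 K, Els Q f t.1 α γ u v θ θ') ∧ 1 ≤ b ∧ 1 ≤ g ∧
      t.1.2.2.2 = (b : ℤ) * g ∧ Nat.Coprime g f ∧ (∀ p : ℕ, p.Prime → p ∣ b → p ∣ f) ∧
      a ≠ ⊥ ∧ Prim a ∧ Ideal.absNorm a = g ∧ Ideal.absNorm A = b ^ 5 ∧
      Ideal.span {θ} = a ^ 5 * A := by
    rintro ⟨t, ht⟩
    obtain ⟨hT, hZ, hZY, hl, hlX, hdis⟩ := hF t ht
    obtain ⟨α, γ, u, v, θ, θ', hE⟩ := h1 K Q f t hT hf hdis hZ.ne' hl.ne'
    obtain ⟨b, g, hb, hg, hbg, hgf, hbf⟩ := FA_split f t.2.2.2 hZ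
    obtain ⟨a, A, ha0, haP, haN, hAN, haA⟩ := h2 K Q f t α γ u v θ θ' hD hT hf hZ hl hE b g
      hb hg hbg hgf hbf
    exact ⟨θ, b, g, a, A, ⟨α, γ, u, v, θ', hE⟩, hb, hg, hbg, hgf, hbf, ha0, haP, haN, hAN, haA⟩
  choose θ b g a A hE hb hg hbg hgf hbf ha0 haP haN hAN haA using data
  have hsq : (0 : ℝ) ≤ rad f * √|(Q.D : ℝ)| := by positivity
  have hR1 : (0 : ℝ) ≤ 6 ^ f.primeFactors.card *
      (1 + 2 * Real.pi * Y / (rad f * √|(Q.D : ℝ)|)) + 1 := by positivity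
  have hR2 : (0 : ℝ) ≤ 7 ^ f.primeFactors.card *
      (1 + 2 * Real.pi * X / (rad f * √|(Q.D : ℝ)|)) := by positivity
  have hbY : ∀ t, (b t : ℝ) * g t ≤ Y := by
    intro t
    have e1 := (hF t.1 t.2).2.2.1
    rw [hbg t] at e1
    push_cast at e1
    exact e1
  have hbM : ∀ t, b t ∣ M := by
    intro t
    refine hMb (b t) (hb t) ?_ (hbf t)
    have e1 := hbY t
    have e2 : (1 : ℝ) ≤ g t := by exact_mod_cast hg t
    have e3 : (0 : ℝ) ≤ b t := Nat.cast_nonneg _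
    nlinarith
  have main : (F.attach.card : ℝ) ≤ (M.divisors.card : ℝ) *
      (((M ^ 5).divisors.card : ℝ) ^ 2 * (((Nat.card {x : ClassGroup (𝓞 K) // x ^ 5 = 1} : ℝ) *
      (6 ^ f.primeFactors.card * (1 + 2 * Real.pi * Y / (rad f * √|(Q.D : ℝ)|)) + 1)) *
      (12 * (7 ^ f.primeFactors.card * (1 + 2 * Real.pi * X / (rad f * √|(Q.D : ℝ)|)))))) := by
    refine FC_step F.attach b _ _ (by positivity) (fun I hI => ?_) fun z₁ s₁ hs₁ => ?_
    · have e1 : I ⊆ M.divisors := by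
        intro y hy
        obtain ⟨x, _, rfl⟩ := hI y hy
        exact Nat.mem_divisors.2 ⟨hbM x, by omega⟩
      exact_mod_cast Finset.card_le_card e1
    refine FC_step s₁ A _ _ (by positivity) (fun I hI => ?_) fun z₂ s₂ hs₂ => ?_
    · refine FC_ideal hfin (M ^ 5) (Nat.one_le_pow _ _ hM) I fun y hy => ?_
      obtain ⟨x, _, rfl⟩ := hI y hy
      exact HFD_dvd _ _ _ (hAN x) (hbM x)
    refine FC_step s₂ a _ _ (by positivity) (fun I hI => ?_) fun z₃ s₃ hs₃ => ?_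
    · rcases I.eq_empty_or_nonempty with rfl | ⟨y₀, hy₀⟩
      · simp only [Finset.card_empty, Nat.cast_zero]
        positivity
      obtain ⟨x₀, hx₀, _⟩ := hI y₀ hy₀
      have e1 : A x₀ = z₂ := (hs₂ x₀ hx₀).2
      have e2 : b x₀ = z₁ := (hs₁ x₀ (hs₂ x₀ hx₀).1).2
      have hz₁ : 1 ≤ z₁ := e2 ▸ hb x₀
      have hz₂ : Ideal.absNorm z₂ = z₁ ^ 5 := by
        rw [← e1, ← e2]
        exact hAN x₀
      refine h3 K Q z₂ _ (HFD_ne z₂ z₁ hz₁ hz₂) hR1 I (fun y hy => ?_) fun T hT hTp => ?_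
      · obtain ⟨x, hx, rfl⟩ := hI y hy
        refine ⟨ha0 x, θ x, ?_⟩
        rw [← (hs₂ x hx).2]
        exact (haA x).symm
      · refine h4 K Q f z₁ z₂ Y hD hf hp5 hz₁ hz₂ hY T (fun y hy => ?_) hTp
        obtain ⟨x, hx, rfl⟩ := hI y (hT hy)
        have e3 : A x = z₂ := (hs₂ x hx).2
        have e4 : b x = z₁ := (hs₁ x (hs₂ x hx).1).2
        refine ⟨ha0 x, haP x, ?_, ?_, θ x, ?_, ?_⟩
        · rw [haN x]
          exact hgf x
        · rw [haN x, ← e4]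
          exact hbY x
        · rw [← e3]
          exact haA x
        · obtain ⟨α, γ, u, v, θ', hE'⟩ := hE x
          exact ⟨_, hE'.yθ⟩
    refine FC_step s₃ θ _ _ (by positivity) (fun I hI => ?_) fun z₄ s₄ hs₄ => ?_
    · refine HFD_gen Q hD (z₃ ^ 5 * z₂) I fun y hy => ?_
      obtain ⟨x, hx, rfl⟩ := hI y hy
      have e1 : a x = z₃ := (hs₃ x hx).2
      have e2 : A x = z₂ := (hs₂ x (hs₃ x hx).1).2
      rw [← e1, ← e2]
      exact haA x
    · have e1 : (s₄.image Subtype.val).card = s₄.card :=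
        Finset.card_image_of_injective _ Subtype.val_injective
      rw [← e1]
      refine h5 K Q f z₄ X hD hf hp5 hX _ fun t ht => ?_
      obtain ⟨x, hx, rfl⟩ := Finset.mem_image.1 ht
      obtain ⟨hT, hZ, hZY, hl, hlX, hdis⟩ := hF x.1 x.2
      refine ⟨hT, hZ, hl, hlX, ?_⟩
      have e2 : θ x = z₄ := (hs₄ x hx).2
      rw [← e2]
      exact hE x
  rw [Finset.card_attach] at main
  refine main.trans (le_of_eq ?_)
  ring

end Pool.Agent.helper26.T5
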