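import Pool.Agent.helper95.T5.SpecM

set_option autoImplicit false

/-!
# T5: row SCM, the main theorem for classes
-/

namespace Pool.Agent.T5

open Finset NumberField Pool.Agent.helper3.FT Pool.Agent.helper47.RA

/-- the number of ideals in a slice -/
noncomputable def SCM_A (N Y : ℝ) : ℝ := ∑ D ∈ DN N, (cA D Y : ℝ)

theorem SCM_nonneg (N Y : ℝ) : 0 ≤ SCM_A N Y := Finset.sum_nonneg fun _ _ => Nat.cast_nonneg _

theorem SCM_N (N Y : ℝ) (h : N < 1) : SCM_A N Y = 0 := by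
  unfold SCM_A
  have h1 : DN N = ∅ := by
    unfold DN
    have h2 : ⌊N⌋ ≤ 0 := by
      have : ⌊N⌋ < 1 := Int.floor_lt.2 (by exact_mod_cast h)
      omega
    rw [Finset.Icc_eq_empty (by omega), Finset.filter_empty]
  rw [h1, Finset.sum_empty]

theorem SCM_Y (N Y : ℝ) (h : Y < 1) : SCM_A N Y = 0 := by
  classical
  unfold SCM_A
  refine Finset.sum_eq_zero fun D _ => ?_
  have h1 : cA D Y = 0 := by
    unfold cA
    split_ifs with h2
    · have h3 : IA h2.some.K Y = ∅ := by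
        rw [Set.eq_empty_iff_forall_notMem]
        rintro a ⟨ha, _, _, _, _, h4⟩
        have h5 : (Ideal.absNorm a : ℝ) < 1 := lt_of_le_of_lt h4 h
        have h6 : Ideal.absNorm a < 1 := by exact_mod_cast h5
        exact ha (Ideal.absNorm_eq_zero_iff.1 (by omega))
      rw [h3, Set.ncard_empty]
    · rfl
  rw [h1, Nat.cast_zero]

theorem SCM_pow (x : ℝ) (m : ℕ) : ∃ n : ℕ, m ≤ n ∧ x < 2 ^ n := by
  obtain ⟨n, hn⟩ := pow_unbounded_of_one_lt x (one_lt_two : (1 : ℝ) < 2)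
  refine ⟨max m n, le_max_left _ _, hn.trans_le ?_⟩
  exact pow_le_pow_right₀ one_le_two (le_max_right _ _)

/-- SCM -/
theorem SCM (hSC2 : SC2_stmt) (hSC3 : SC3_stmt) : SCM_stmt := by
  intro hU hL hUU h hh δ hδ ε hε
  obtain ⟨N₀, hN₀, H⟩ := hSC3 SCM_A SCM_nonneg SCM_N SCM_Y
    (fun δ' h1 h2 ε' hε' => by
      obtain ⟨N₁, H1⟩ := hU δ' h1 h2 ε' hε'
      obtain ⟨N₂, H2⟩ := hL δ' h1 h2 ε' hε'
      refine ⟨max N₁ N₂, fun N Y hN hY1 hY2 => ?_⟩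
      have e1 := H1 N Y ((le_max_left _ _).trans hN) hY1 hY2
      have e2 := H2 N Y ((le_max_right _ _).trans hN) hY1 hY2
      rw [abs_le]
      unfold SCM_A
      constructor
      · linarith
      · linarith) hUU δ hδ ε hε
  refine ⟨N₀, fun N Y hN hY1 hY2 => ?_⟩
  have hN1 : 1 ≤ N := hN₀.trans hN
  have hY0 : 0 < Y := lt_of_lt_of_le (Real.rpow_pos_of_pos (by linarith) _) hY1
  obtain ⟨I', J₀, h4, H3⟩ := H N Y hN hY1 hY2
  obtain ⟨I, hI1, hI2⟩ := SCM_pow N I'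
  obtain ⟨J, hJ1, hJ2⟩ := SCM_pow Y J₀
  obtain ⟨e1, e2⟩ := H3 I J hJ1
  obtain ⟨e3, e4⟩ := hSC2 h hh N Y I I' J hN1 hY0 hI2 hJ2 hI1 h4
  have e5 : ∑ i ∈ range I, ∑ j ∈ range J, SCM_A (N / 2 ^ i) (Y / 2 ^ j) =
      ∑ i ∈ range I, ∑ j ∈ range J, ∑ D ∈ DN (N / 2 ^ i), (cA D (Y / 2 ^ j) : ℝ) := rfl
  have e6 : ∑ i ∈ range I', ∑ j ∈ range J, SCM_A (N / 2 ^ i) (Y / 2 ^ j) =
      ∑ i ∈ range I', ∑ j ∈ range J, ∑ D ∈ DN (N / 2 ^ i), (cA D (Y / 2 ^ j) : ℝ) := rfl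
  rw [e5] at e1
  rw [e6] at e2
  rw [abs_le]
  constructor
  · linarith
  · linarith

end Pool.Agent.T5
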