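import Pool.Agent.helper82.T5.SpecS

/-! # T5, module SMW: the maximal weight -/

set_option autoImplicit false

namespace Pool.Agent.T5

open Finset NumberField Pool.Agent.helper3.FT Pool.Agent.helper47.RA

theorem SMW_fac {p : ℕ} (hp : p.Prime) : 1 ≤ (p : ℝ) / (p - 1) ∧
    (p : ℝ) / (p - 1) ≤ ((p : ℝ) / (p - 1)) ^ 2 ∧ (p : ℝ) / (p - 1) ≤ Real.exp (2 / p) := by
  have h2 : (2 : ℝ) ≤ p := by exact_mod_cast hp.two_le
  have h1 : (0 : ℝ) < (p : ℝ) - 1 := by linarith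
  have h3 : 1 ≤ (p : ℝ) / (p - 1) := by
    rw [le_div_iff₀ h1]
    linarith
  refine ⟨h3, by nlinarith, ?_⟩
  have h4 : (p : ℝ) / (p - 1) = 1 / (p - 1) + 1 := by
    field_simp
    ring
  have h5 : 1 / ((p : ℝ) - 1) ≤ 2 / p := by
    rw [div_le_div_iff₀ h1 (by linarith)]
    linarith
  calc (p : ℝ) / (p - 1) = 1 / (p - 1) + 1 := h4
    _ ≤ 2 / p + 1 := by linarith
    _ ≤ Real.exp (2 / p) := Real.add_one_le_exp _

theorem SMW_mem {p w : ℕ} (h : p ∈ pr w) : p.Prime := by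
  unfold pr at h
  exact (mem_filter.1 h).2

theorem SMW_primes (w : ℕ) : pr w = Nat.primesLE w := by
  ext p
  unfold pr
  rw [mem_filter, mem_range, Nat.mem_primesLE]
  constructor
  · rintro ⟨h1, h2⟩
    exact ⟨by omega, h2⟩
  · rintro ⟨h1, h2⟩
    exact ⟨by omega, h2⟩

theorem SMW_up (w : ℕ) (hw : 3 ≤ w) : MW w ≤ Real.exp 16 * Real.log w ^ 4 := by
  have hw' : (3 : ℝ) ≤ w := by exact_mod_cast hw
  have hlog : 0 < Real.log w := Real.log_pos (by linarith)
  have h1 : MW w ≤ ∏ p ∈ pr w, Real.exp (4 / p) := by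
    unfold MW
    refine prod_le_prod (fun p _ => by positivity) fun p hp => ?_
    obtain ⟨ha, hb, hc⟩ := SMW_fac (SMW_mem hp)
    have h5 : Real.exp (4 / p) = Real.exp (2 / p) ^ 2 := by
      rw [← Real.exp_nat_mul]
      congr 1
      push_cast
      ring
    rw [h5]
    exact pow_le_pow_left₀ (by linarith) hc 2
  rw [← Real.exp_sum] at h1
  have h2 : ∑ p ∈ pr w, 4 / (p : ℝ) = 4 * ∑ p ∈ Nat.primesLE w, 1 / (p : ℝ) := by
    rw [SMW_primes, mul_sum]
    exact sum_congr rfl fun p _ => by ring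
  have h3 := Pool.Agent.Lib.PrimeSums.sum_inv_le w (by omega)
  have h4 : ∑ p ∈ pr w, 4 / (p : ℝ) ≤ 16 + 4 * Real.log (Real.log w) := by
    rw [h2]
    linarith
  calc MW w ≤ Real.exp (∑ p ∈ pr w, 4 / (p : ℝ)) := h1
    _ ≤ Real.exp (16 + 4 * Real.log (Real.log w)) := Real.exp_le_exp.2 h4
    _ = Real.exp 16 * Real.log w ^ 4 := by
        rw [Real.exp_add]
        congr 1
        rw [show (4 : ℝ) * Real.log (Real.log w) = ((4 : ℕ) : ℝ) * Real.log (Real.log w) by norm_num,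
          Real.exp_nat_mul, Real.exp_log hlog]

theorem SMW_one (w : ℕ) : 1 ≤ MW w := by
  unfold MW
  have h : ∏ _p ∈ pr w, (1 : ℝ) ≤ ∏ p ∈ pr w, ((p : ℝ) / (p - 1)) ^ 2 := by
    refine prod_le_prod (fun p _ => zero_le_one) fun p hp => ?_
    obtain ⟨ha, hb, hc⟩ := SMW_fac (SMW_mem hp)
    linarith
  rwa [prod_const_one] at h

theorem SMW_gen (w : ℕ) (f : ℕ → ℝ) (hf : ∀ p : ℕ, p.Prime → 0 ≤ f p ∧ f p ≤ ((p : ℝ) / (p - 1)) ^ 2) :
    0 ≤ ∏ p ∈ pr w, f p ∧ ∏ p ∈ pr w, f p ≤ MW w :=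
  ⟨prod_nonneg fun p hp => (hf p (SMW_mem hp)).1,
    prod_le_prod (fun p hp => (hf p (SMW_mem hp)).1) fun p hp => (hf p (SMW_mem hp)).2⟩

theorem SMW : SMW_stmt := by
  classical
  refine ⟨SMW_one, ?_, ?_, ?_⟩
  · have h1 : Filter.Tendsto (fun x : ℝ => Real.log x ^ 4 / √x) Filter.atTop (nhds 0) := by
      have h2 := isLittleO_log_rpow_rpow_atTop (s := 1 / 2) (4 : ℝ) (by norm_num)
      have h3 := h2.tendsto_div_nhds_zero
      refine h3.congr' ?_
      filter_upwards with x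
      rw [Real.sqrt_eq_rpow, show (4 : ℝ) = ((4 : ℕ) : ℝ) by norm_num, Real.rpow_natCast]
    have h4 : Filter.Tendsto (fun w : ℕ => Real.exp 16 * (Real.log (w : ℝ) ^ 4 / √(w : ℝ)))
        Filter.atTop (nhds 0) := by
      have h5 := (h1.comp tendsto_natCast_atTop_atTop).const_mul (Real.exp 16)
      rw [mul_zero] at h5
      exact h5
    refine squeeze_zero' ?_ ?_ h4
    · filter_upwards with w
      have := SMW_one w
      positivity
    · filter_upwards [Filter.eventually_ge_atTop 3] with w hw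
      rw [← mul_div_assoc]
      exact div_le_div_of_nonneg_right (SMW_up w hw) (Real.sqrt_nonneg _)
  · intro w t
    unfold fw
    apply SMW_gen
    intro p hp
    obtain ⟨ha, hb, hc⟩ := SMW_fac hp
    unfold fp
    split_ifs
    · exact ⟨by linarith, hb⟩
    · exact ⟨le_rfl, by positivity⟩
    · exact ⟨le_rfl, by positivity⟩
    · exact ⟨by positivity, le_rfl⟩
    · exact ⟨by linarith, hb⟩
  · intro K _ _ Q w a α
    unfold wt
    apply SMW_gen
    intro p hp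
    obtain ⟨ha, hb, hc⟩ := SMW_fac hp
    split_ifs
    · exact ⟨by positivity, le_rfl⟩
    · exact ⟨by linarith, hb⟩
    · exact ⟨le_rfl, by positivity⟩

end Pool.Agent.T5
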