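import Pool.Agent.helper94.T5.SpecV

/-! # T5, module VBD: bounds on the central region -/

set_option autoImplicit false

namespace Pool.Agent.T5V

open MeasureTheory Set
open scoped ENNReal

theorem VBD : VBD_stmt := by
  rintro κ hκ hκ2 ⟨Z, n, k, m, g⟩ hx
  simp only [CenR, mem_ofPred_eq] at hx
  obtain ⟨hZ1, hZ2, hn, hk, hL1, hL2, hW1, hW2, hS1, hS2⟩ := hx
  simp only
  set L := La Z n k m g with hLdef
  set W := Wd Z n k m g with hWdef
  have hL0 : 0 < L := lt_of_lt_of_le hκ hL1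
  have hW0 : 0 < W := by linarith
  have hZ0 : 0 < Z := by linarith
  have hLe : L * n ^ 2 = m * g + Z * k ^ 2 := by
    rw [hLdef]
    unfold La
    rw [div_mul_cancel₀]
    positivity
  have hWe : W * (n * k) ^ 2 = 4 * Z ^ 2 * L * k ^ 2 - (Z * g - L * m) ^ 2 := by
    rw [hWdef]
    unfold Wd
    rw [← hLdef, div_mul_cancel₀]
    positivity
  have hWs : √W ≤ 1 := by
    rw [Real.sqrt_le_left (by norm_num : (0 : ℝ) ≤ 1)]
    linarith
  have hL3 : L ≤ 1 := hL2.trans hWs
  -- the two identities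
  have e1 : (Z * g - L * m) ^ 2 = k ^ 2 * (4 * Z ^ 2 * L - n ^ 2 * W) := by
    linear_combination hWe
  have e2 : (Z * g + L * m) ^ 2 = n ^ 2 * (4 * Z * L ^ 2 - k ^ 2 * W) := by
    have h1 : (Z * g + L * m) ^ 2 = (Z * g - L * m) ^ 2 + 4 * Z * L * (m * g) := by ring
    rw [h1]
    have h2 : m * g = L * n ^ 2 - Z * k ^ 2 := by linarith
    rw [h2]
    linear_combination hWe
  have hk2 : 0 < k ^ 2 := by positivity
  have hn2 : 0 < n ^ 2 := by positivity
  have hZZ : Z ^ 2 ≤ 1 := by nlinarith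
  have hLL : L ^ 2 ≤ 1 := by nlinarith
  have hZL : 4 * Z ^ 2 * L ≤ 4 := by nlinarith
  have hZL2 : 4 * Z * L ^ 2 ≤ 4 := by nlinarith [sq_nonneg L]
  have f1 : 0 ≤ 4 * Z ^ 2 * L - n ^ 2 * W := by
    by_contra h
    push Not at h
    have := mul_neg_of_pos_of_neg hk2 h
    rw [← e1] at this
    exact absurd (sq_nonneg (Z * g - L * m)) (not_le.2 this)
  have f2 : 0 ≤ 4 * Z * L ^ 2 - k ^ 2 * W := by
    by_contra h
    push Not at h
    have := mul_neg_of_pos_of_neg hn2 h
    rw [← e2] at this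
    exact absurd (sq_nonneg (Z * g + L * m)) (not_le.2 this)
  have hn8 : n ^ 2 ≤ 8 := by nlinarith
  have hk8 : k ^ 2 ≤ 8 := by nlinarith
  have hn3 : n ≤ 3 := by nlinarith
  have hk3 : k ≤ 3 := by nlinarith
  have g1 : |Z * g - L * m| ≤ 2 * k := by
    apply abs_le_of_sq_le_sq _ (by positivity)
    rw [e1]
    have : 0 ≤ n ^ 2 * W := by positivity
    nlinarith
  have g2 : |Z * g + L * m| ≤ 2 * n := by
    apply abs_le_of_sq_le_sq _ (by positivity)
    rw [e2]
    have : 0 ≤ k ^ 2 * W := by positivity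
    nlinarith
  rw [abs_le] at g1 g2
  have hLm : |L * m| ≤ 8 := by
    rw [abs_le]
    constructor <;> linarith
  have hZg : |Z * g| ≤ 8 := by
    rw [abs_le]
    constructor <;> linarith
  have hsL : κ ≤ √L := by
    apply Real.le_sqrt_of_sq_le
    nlinarith
  have hsW : 0 < √W := Real.sqrt_pos.2 hW0
  have hsL0 : 0 < √L := Real.sqrt_pos.2 hL0
  have hsZ0 : 0 < √Z := Real.sqrt_pos.2 hZ0
  have hsZ : 1 / 2 ≤ √Z := by
    apply Real.le_sqrt_of_sq_le
    nlinarith
  refine ⟨?_, by linarith, ?_, by linarith, ?_, ?_⟩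
  · -- lower bound for n
    have h1 : κ * (2 * Z * √L) ≤ n * √W := by
      have := hS1
      unfold S1 at this
      rw [← hLdef, ← hWdef, le_div_iff₀ (by positivity)] at this
      exact this
    have h2 : n * √W ≤ n := by nlinarith
    have h3 : κ * κ ≤ κ * (2 * Z * √L) := by
      apply mul_le_mul_of_nonneg_left _ hκ.le
      nlinarith
    nlinarith
  · have h1 : κ * (2 * √Z * L) ≤ k * √W := by
      have := hS2
      unfold S2 at this
      rw [← hLdef, ← hWdef, le_div_iff₀ (by positivity)] at this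
      exact this
    have h2 : k * √W ≤ k := by nlinarith
    have h3 : κ * κ ≤ κ * (2 * √Z * L) := by
      apply mul_le_mul_of_nonneg_left _ hκ.le
      nlinarith
    nlinarith
  · rw [le_div_iff₀ hκ]
    rw [abs_mul, abs_of_pos hL0] at hLm
    have : |m| * κ ≤ |m| * L := mul_le_mul_of_nonneg_left hL1 (abs_nonneg m)
    linarith
  · rw [abs_mul, abs_of_pos hZ0] at hZg
    have : 1 / 2 * |g| ≤ Z * |g| := mul_le_mul_of_nonneg_right hZ1.le (abs_nonneg g)
    linarith

end Pool.Agent.T5V
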