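import Pool.Agent.helper8.T5.SpecU

/-! # T5, module UE1: the elementary bound -/

set_option autoImplicit false

namespace Pool.Agent.T5

open Finset NumberField Pool.Agent.helper3.FT Pool.Agent.helper47.RA

theorem UE1 (hUEC : UEC_stmt) (hUEA : UEA_stmt) (hUSM : USM_stmt) : UE1_stmt := by
  classical
  intro ε hε
  obtain ⟨C, hC, h⟩ := hUEC ε hε
  refine ⟨2 * C, by linarith, ?_⟩
  intro N Y hN hY s Φ hs
  set P : Finset (ℕ × ℕ) := (Icc 1 ⌊Y⌋₊ ×ˢ Icc 1 ⌊Y⌋₊).filter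
    fun p : ℕ × ℕ => (p.1 : ℝ) * p.2 ≤ Y with hP
  have hP1 : ∀ p ∈ P, 1 ≤ p.1 ∧ 1 ≤ p.2 ∧ (p.1 : ℝ) * p.2 ≤ Y := by
    intro p hp
    rw [hP, mem_filter, mem_product, mem_Icc, mem_Icc] at hp
    exact ⟨hp.1.1.1, hp.1.2.1, hp.2⟩
  have h1 := h N Y hN hY s Φ hs P (fun D => IA (Φ D).K Y) (fun p hp => (hP1 p hp).2.2) (by
    intro D a ha
    obtain ⟨ha0, hap, hap5, hanp, _, haY⟩ := ha
    refine ⟨ha0, hap, hap5, hanp, ?_⟩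
    obtain ⟨I, b, _, _, _, _, _, _, hN1, hr1, hz1, _⟩ := hUEA (Φ D).K (Φ D).Q a ha0 hap
    have hmul : ((rr (Φ D).Q a : ℕ) : ℝ) * ((zz (Φ D).Q a : ℕ) : ℝ) ≤ Y := by
      have : (Ideal.absNorm a : ℝ) = ((rr (Φ D).Q a : ℕ) : ℝ) * ((zz (Φ D).Q a : ℕ) : ℝ) := by
        exact_mod_cast hN1
      rw [← this]
      exact haY
    have hr1' : (1 : ℝ) ≤ ((rr (Φ D).Q a : ℕ) : ℝ) := by exact_mod_cast hr1
    have hz1' : (1 : ℝ) ≤ ((zz (Φ D).Q a : ℕ) : ℝ) := by exact_mod_cast hz1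
    rw [hP, mem_filter, mem_product, mem_Icc, mem_Icc]
    refine ⟨⟨⟨hr1, Nat.le_floor ?_⟩, ⟨hz1, Nat.le_floor ?_⟩⟩, hmul⟩
    · nlinarith
    · nlinarith)
  obtain ⟨hs1, hs2⟩ := hUSM.1 Y hY P hP1
  have hsN : 0 < √N := Real.sqrt_pos.2 (by linarith)
  have h2 : ∑ p ∈ P, (√N / p.1 + (p.2 : ℝ) ^ 2 * √p.2 * √p.1 / √N) =
      √N * ∑ p ∈ P, 1 / (p.1 : ℝ) + (∑ p ∈ P, (p.2 : ℝ) ^ 2 * √p.2 * √p.1) / √N := by
    rw [Finset.sum_add_distrib, Finset.mul_sum, Finset.sum_div]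
    refine congrArg₂ _ (Finset.sum_congr rfl fun p _ => ?_) rfl
    rw [mul_one_div]
  have h3 : √N * ∑ p ∈ P, 1 / (p.1 : ℝ) ≤ √N * (2 * Y) := mul_le_mul_of_nonneg_left hs1 hsN.le
  have h4 : (∑ p ∈ P, (p.2 : ℝ) ^ 2 * √p.2 * √p.1) / √N ≤ 2 * (Y ^ 3 * √Y) / √N :=
    div_le_div_of_nonneg_right hs2 hsN.le
  have hCY : 0 ≤ C * Y ^ ε := by
    have : 0 < Y ^ ε := Real.rpow_pos_of_pos (by linarith) _
    positivity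
  calc (∑ D : s, ((IA (Φ D).K Y).ncard : ℝ))
      ≤ C * Y ^ ε * ∑ p ∈ P, (√N / p.1 + (p.2 : ℝ) ^ 2 * √p.2 * √p.1 / √N) := h1
    _ ≤ C * Y ^ ε * (√N * (2 * Y) + 2 * (Y ^ 3 * √Y) / √N) := by
        rw [h2]
        exact mul_le_mul_of_nonneg_left (add_le_add h3 h4) hCY
    _ = 2 * C * Y ^ ε * (Y * √N + Y ^ 3 * √Y / √N) := by ring

end Pool.Agent.T5
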